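import Mathlib
import Pool.Agent.Q38.SP397

set_option autoImplicit false

/-!
# The four identities fail for `p = 397`

Here `(x_p, y_p) = (23, 2)`, and each identity would imply `(S² + 3175)² = 3175² - 1` for the value
`S` in question, where `3175 = 3 * 23² + 397 * 2²`. The left-hand sides are polynomials in a
primitive root of unity of order `4764 = 12 * 397`, and the relation does not hold modulo a prime
ideal above `14293`. (In fact the values are the cubes of the predicted ones, up to sign.)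
-/

namespace Pool.Agent.Results.MP_8a3680_nt.IdentitiesFail

open Polynomial

/-- `S_p(x) = ∏_{k=1}^{(p-1)/2} (x - exp (2 π i k² / p))` -/
noncomputable def S (p : ℕ) (x : ℂ) : ℂ :=
  ∏ k ∈ Finset.Icc 1 ((p - 1) / 2), (x - Complex.exp (2 * Real.pi * Complex.I * (k : ℂ) ^ 2 / p))

/-- `N_ε(p)`, the number of the integers `k` with `1 ≤ k < p / 4` and `(k / p) = ε` -/
def N (ε : ℤ) (p : ℕ) : ℕ :=
  ((Finset.range p).filter (fun k => 1 ≤ k ∧ 4 * k < p ∧ jacobiSym k p = ε)).card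

/-- `(x, y)` is the least solution in positive integers of `3 x² + 1 = p y²` -/
def IsLeastSolution (p x y : ℕ) : Prop :=
  0 < x ∧ 0 < y ∧ 3 * x ^ 2 + 1 = p * y ^ 2 ∧
    ∀ x' y' : ℕ, 0 < x' → 0 < y' → 3 * x' ^ 2 + 1 = p * y' ^ 2 → x ≤ x' ∧ y ≤ y'

/-- the right-hand side `i (-1) ^ ((p - 5) / 8 + n) (x √3 + s y √p)` of the identities -/
noncomputable def rhs (p x y n : ℕ) (s : ℤ) : ℂ :=
  Complex.I * (-1) ^ ((p - 5) / 8 + n) *
    ((x : ℂ) * ((Real.sqrt 3 : ℝ) : ℂ) + (s : ℂ) * y * ((Real.sqrt p : ℝ) : ℂ))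

/-- `ζ₁₂^j` with `ζ₁₂ = exp (2 π i / 12)` -/
noncomputable def z (j : ℤ) : ℂ := Complex.exp (2 * Real.pi * Complex.I * j / 12)

/-! ### Reduction to a commutative ring with a primitive root of unity of order `4764` -/

/-- the polynomial whose value at `exp (2 π i / 4764)` is `S_397(ζ₁₂ ^ j)` -/
noncomputable def P (j : ℕ) : ℤ[X] :=
  ∏ k ∈ Finset.range 198, (X ^ (397 * j) - X ^ (12 * (k + 1) ^ 2))

/-- the primitive root of unity -/
noncomputable def w : ℂ := Complex.exp (2 * Real.pi * Complex.I / (4764 : ℕ))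

theorem w_prim : IsPrimitiveRoot w 4764 := Complex.isPrimitiveRoot_exp 4764 (by norm_num)

theorem aux_eval {R : Type*} [CommRing R] (F : ℤ[X]) (c d : ℕ) (g : R) :
    eval₂ (Int.castRingHom R) g ((F ^ 2 + (c : ℤ[X])) ^ 2 - (d : ℤ[X])) =
      ((eval₂ (Int.castRingHom R) g F) ^ 2 + c) ^ 2 - d := by
  rw [eval₂_sub, eval₂_pow, eval₂_add, eval₂_pow, eval₂_natCast, eval₂_natCast]

theorem transfer {R : Type*} [CommRing R] [IsDomain R] {g : R} (hg : IsPrimitiveRoot g 4764)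
    (F : ℤ[X]) (c d : ℕ) (h : ((aeval w F) ^ 2 + (c : ℂ)) ^ 2 - (d : ℂ) = 0) :
    ((eval₂ (Int.castRingHom R) g F) ^ 2 + c) ^ 2 - d = 0 := by
  have h0 : aeval w ((F ^ 2 + (c : ℤ[X])) ^ 2 - (d : ℤ[X])) = 0 := by
    rw [map_sub, map_pow, map_add, map_pow, map_natCast, map_natCast]
    exact h
  have h1 : minpoly ℤ w ∣ (F ^ 2 + (c : ℤ[X])) ^ 2 - (d : ℤ[X]) :=
    minpoly.isIntegrallyClosed_dvd (w_prim.isIntegral (by norm_num)) h0
  rw [← cyclotomic_eq_minpoly w_prim (by norm_num)] at h1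
  obtain ⟨T, hT⟩ := h1
  rw [← aux_eval, hT, eval₂_mul]
  have h2 : eval₂ (Int.castRingHom R) g (cyclotomic 4764 ℤ) = 0 := by
    rw [← eval_map, map_cyclotomic]
    exact hg.isRoot_cyclotomic (by norm_num)
  rw [h2, zero_mul]

theorem S_eq (j : ℕ) : S 397 (z j) = aeval w (P j) := by
  rw [S, P, map_prod]
  have h1 : Finset.Icc 1 ((397 - 1) / 2) = (Finset.range 198).image (fun k => k + 1) := by
    ext m
    simp only [Finset.mem_Icc, Finset.mem_image, Finset.mem_range]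
    constructor
    · intro h
      exact ⟨m - 1, by omega, by omega⟩
    · rintro ⟨k, hk, rfl⟩
      omega
  rw [h1, Finset.prod_image (by intro a _ b _ h; simpa using h)]
  refine Finset.prod_congr rfl fun k _ => ?_
  rw [map_sub, map_pow, map_pow, aeval_X, z, w, ← Complex.exp_nat_mul, ← Complex.exp_nat_mul]
  congr 2
  · push_cast
    ring
  · push_cast
    ring

/-- each of the identities implies a polynomial relation for `S` -/
theorem relation {s : ℂ} {n : ℕ} {t : ℤ} (ht : t = 1 ∨ t = -1) (h : s = rhs 397 23 2 n t)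
    {c d : ℕ} (hc : (c : ℂ) = 3175) (hd : (d : ℂ) = 10080624) :
    (s ^ 2 + (c : ℂ)) ^ 2 - (d : ℂ) = 0 := by
  rw [hc, hd]
  have h3 : (((Real.sqrt 3 : ℝ) : ℂ)) ^ 2 = 3 := by
    rw [← Complex.ofReal_pow, Real.sq_sqrt (by norm_num)]
    norm_num
  have h397 : (((Real.sqrt (397 : ℕ) : ℝ) : ℂ)) ^ 2 = 397 := by
    rw [← Complex.ofReal_pow, Real.sq_sqrt (by norm_num)]
    norm_num
  have hsgn : ((-1 : ℂ) ^ ((397 - 5) / 8 + n)) ^ 2 = 1 := by
    rw [← pow_mul, mul_comm, pow_mul]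
    norm_num
  have ht2 : (t : ℂ) ^ 2 = 1 := by
    rcases ht with h | h <;> rw [h] <;> norm_num
  rw [h, rhs]
  set a := ((Real.sqrt 3 : ℝ) : ℂ)
  set b := ((Real.sqrt (397 : ℕ) : ℝ) : ℂ)
  set e := (-1 : ℂ) ^ ((397 - 5) / 8 + n)
  have h5 : (Complex.I * e * (((23 : ℕ) : ℂ) * a + (t : ℂ) * ((2 : ℕ) : ℂ) * b)) ^ 2 +
      3175 = -(92 * (t : ℂ) * a * b) := by
    have : (Complex.I * e * (((23 : ℕ) : ℂ) * a + (t : ℂ) * ((2 : ℕ) : ℂ) * b)) ^ 2 =
        Complex.I ^ 2 * e ^ 2 * (529 * a ^ 2 + 92 * (t : ℂ) * a * b + 4 * (t : ℂ) ^ 2 * b ^ 2) := by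
      push_cast
      ring
    rw [this, hsgn, h3, h397, ht2, Complex.I_sq]
    ring
  rw [h5]
  have h6 : (-(92 * (t : ℂ) * a * b)) ^ 2 = 8464 * (t : ℂ) ^ 2 * a ^ 2 * b ^ 2 := by ring
  rw [h6, h3, h397, ht2]
  norm_num

theorem not_identity {R : Type*} [CommRing R] [IsDomain R] {g : R} (hg : IsPrimitiveRoot g 4764)
    (c d j V : ℕ) (hV : ∏ k ∈ Finset.range 198, (g ^ (397 * j) - g ^ (12 * (k + 1) ^ 2)) = (V : R))
    (hne : ((V : R) ^ 2 + c) ^ 2 - d ≠ 0)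
    (hc : (c : ℂ) = 3175) (hd : (d : ℂ) = 10080624) (n : ℕ)
    (t : ℤ) (ht : t = 1 ∨ t = -1) : S 397 (z j) ≠ rhs 397 23 2 n t := by
  intro hS
  apply hne
  have h1 := relation ht hS hc hd
  rw [S_eq] at h1
  have h2 := transfer hg (P j) c d h1
  have h3 : eval₂ (Int.castRingHom R) g (P j) = (V : R) := by
    rw [P, eval₂_finsetProd, ← hV]
    refine Finset.prod_congr rfl fun k _ => ?_
    rw [eval₂_sub, eval₂_X_pow, eval₂_X_pow]
  rw [h3] at h2
  exact h2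

theorem z_neg (j : ℤ) : z (-j) = z (12 - j) := by
  unfold z
  rw [show 2 * (Real.pi : ℂ) * Complex.I * ((12 - j : ℤ) : ℂ) / 12 =
    2 * Real.pi * Complex.I * ((-j : ℤ) : ℂ) / 12 + 2 * Real.pi * Complex.I by push_cast; ring,
    Complex.exp_add, Complex.exp_two_pi_mul_I, mul_one]

open Pool.Agent.Q38.SP397

theorem fails (j V : ℕ) (hV : ∏ k ∈ Finset.range 198,
      ((216 : ZMod 14293) ^ (397 * j) - 216 ^ (12 * (k + 1) ^ 2)) = (V : ZMod 14293))
    (hne : (V ^ 2 + 3175) ^ 2 % 14293 ≠ 10080624 % 14293) (n : ℕ) (t : ℤ)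
    (ht : t = 1 ∨ t = -1) : S 397 (z j) ≠ rhs 397 23 2 n t := by
  have : Fact (Nat.Prime 14293) := ⟨by norm_num⟩
  exact not_identity g_prim 3175 10080624 j V hV (mod_aux 3175 10080624 V hne)
    (by norm_num) (by norm_num) n t ht

theorem fails1 (n : ℕ) (t : ℤ) (ht : t = 1 ∨ t = -1) : S 397 (z 1) ≠ rhs 397 23 2 n t := by
  have h := fails 1 10595 (prod_eq 5020 10595 (397 * 1) v1.1 v1.2) (by norm_num) n t ht
  simpa using h

theorem fails11 (n : ℕ) (t : ℤ) (ht : t = 1 ∨ t = -1) : S 397 (z 11) ≠ rhs 397 23 2 n t := by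
  have h := fails 11 3698 (prod_eq 10771 3698 (397 * 11) v11.1 v11.2) (by norm_num) n t ht
  simpa using h

theorem fails5 (n : ℕ) (t : ℤ) (ht : t = 1 ∨ t = -1) : S 397 (z 5) ≠ rhs 397 23 2 n t := by
  have h := fails 5 8994 (prod_eq 3522 8994 (397 * 5) v5.1 v5.2) (by norm_num) n t ht
  simpa using h

theorem fails7 (n : ℕ) (t : ℤ) (ht : t = 1 ∨ t = -1) : S 397 (z 7) ≠ rhs 397 23 2 n t := by
  have h := fails 7 5299 (prod_eq 9273 5299 (397 * 7) v7.1 v7.2) (by norm_num) n t ht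
  simpa using h

theorem least : IsLeastSolution 397 23 2 := by
  refine ⟨by norm_num, by norm_num, by norm_num, ?_⟩
  intro x' y' hx hy h
  have hy2 : 2 ≤ y' := by
    by_contra hcon
    have hy1 : y' = 1 := by omega
    subst hy1
    have h1 : x' ≤ 12 := by nlinarith
    interval_cases x' <;> omega
  refine ⟨?_, hy2⟩
  by_contra hcon
  have h1 : x' ≤ 22 := by omega
  have h2 : 397 * 2 ^ 2 ≤ 397 * y' ^ 2 := by gcongr
  have h3 : 3 * x' ^ 2 ≤ 3 * 22 ^ 2 := by gcongr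
  omega

/-- **The conjecture is false**: for the prime `p = 397 ≡ 13 (mod 24)`, all four identities
fail. -/
theorem result : ∃ p x y : ℕ, p.Prime ∧ p % 24 = 13 ∧ IsLeastSolution p x y ∧
    S p (z 1) ≠ rhs p x y (N (-1) p) (-1) ∧ S p (z (-1)) ≠ rhs p x y (N 1 p) (-1) ∧
    S p (z 5) ≠ rhs p x y (N 1 p) 1 ∧ S p (z (-5)) ≠ rhs p x y (N (-1) p) 1 := by
  refine ⟨397, 23, 2, by norm_num, by norm_num, least, ?_, ?_, ?_, ?_⟩
  · exact fails1 _ _ (Or.inr rfl)
  · rw [z_neg]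
    exact fails11 _ _ (Or.inr rfl)
  · exact fails5 _ _ (Or.inl rfl)
  · rw [z_neg]
    exact fails7 _ _ (Or.inl rfl)

end Pool.Agent.Results.MP_8a3680_nt.IdentitiesFail
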